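import Pool.Agent.Run7.h811.DD.OP

/-!
Piece LIFT of the project DD (MP_fd8964_an): smooth curves give `Crv`.
-/

set_option autoImplicit false

open MeasureTheory Set Filter Topology
open scoped InnerProductSpace ContDiff ENNReal

namespace Pool.Agent.Run7.h811.DD

open Run7.h744.DD
open H772R2.NS (E3 M3 L2V L2M graphW tensL IsTest jac L2sigma)

/-- The space derivative in terms of the joint derivative. -/
theorem fderiv_eq {F : Type} [NormedAddCommGroup F] [NormedSpace ℝ F] {g : ℝ → E3 → F}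
    (hg : ContDiff ℝ ∞ (fun p : ℝ × E3 => g p.1 p.2)) (t : ℝ) (x v : E3) :
    fderiv ℝ (g t) x v = fderiv ℝ (fun p : ℝ × E3 => g p.1 p.2) (t, x) (0, v) := by
  have h1 : HasFDerivAt (fun p : ℝ × E3 => g p.1 p.2)
      (fderiv ℝ (fun p : ℝ × E3 => g p.1 p.2) (t, x)) (t, x) :=
    ((hg.differentiable (by simp)) (t, x)).hasFDerivAt
  have h2 : HasFDerivAt (fun y : E3 => (t, y)) (ContinuousLinearMap.inr ℝ ℝ E3) x :=
    hasFDerivAt_prodMk_right t x
  have h3 : HasFDerivAt (g t) ((fderiv ℝ (fun p : ℝ × E3 => g p.1 p.2) (t, x)).comp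
      (ContinuousLinearMap.inr ℝ ℝ E3)) x := h1.comp x h2
  rw [h3.fderiv]
  rfl

theorem smooth_fd {F : Type} [NormedAddCommGroup F] [NormedSpace ℝ F] {g : ℝ → E3 → F}
    (hg : ContDiff ℝ ∞ (fun p : ℝ × E3 => g p.1 p.2)) (v : E3) :
    ContDiff ℝ ∞ (fun p : ℝ × E3 => fderiv ℝ (g p.1) p.2 v) := by
  have e : (fun p : ℝ × E3 => fderiv ℝ (g p.1) p.2 v)
      = fun p : ℝ × E3 => fderiv ℝ (fun p : ℝ × E3 => g p.1 p.2) p (0, v) := by
    funext p
    exact fderiv_eq hg p.1 p.2 v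
  rw [e]
  exact (hg.fderiv_right (m := ∞) (by simp)).clm_apply contDiff_const

theorem smooth_pd {f : ℝ → E3 → ℝ} (hf : ContDiff ℝ ∞ (fun p : ℝ × E3 => f p.1 p.2)) (i : Fin 3) :
    ContDiff ℝ ∞ (fun p : ℝ × E3 => pd i (f p.1) p.2) := smooth_fd hf _

theorem smooth_lapS {f : ℝ → E3 → ℝ} (hf : ContDiff ℝ ∞ (fun p : ℝ × E3 => f p.1 p.2)) :
    ContDiff ℝ ∞ (fun p : ℝ × E3 => lapS (f p.1) p.2) := by
  unfold lapS
  exact ContDiff.sum fun j _ => smooth_pd (f := fun t => pd j (f t)) (smooth_pd hf j) j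

theorem smooth_comp {g : ℝ → E3 → E3} (hg : ContDiff ℝ ∞ (fun p : ℝ × E3 => g p.1 p.2))
    (i : Fin 3) : ContDiff ℝ ∞ (fun p : ℝ × E3 => g p.1 p.2 i) :=
  contDiff_euclidean.1 hg i

theorem fderiv_zero_off {F : Type} [NormedAddCommGroup F] [NormedSpace ℝ F] {K : Set E3}
    (hK : IsClosed K) {f : E3 → F} (hf : ∀ x, x ∉ K → f x = 0) {x : E3} (hx : x ∉ K) :
    fderiv ℝ f x = 0 := by
  have h1 : f =ᶠ[𝓝 x] fun _ => 0 := by
    filter_upwards [hK.isOpen_compl.mem_nhds hx] with y hy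
    exact hf y hy
  rw [h1.fderiv_eq]
  simp

theorem pd_zero_off {K : Set E3} (hK : IsClosed K) {f : E3 → ℝ} (hf : ∀ x, x ∉ K → f x = 0)
    (i : Fin 3) : ∀ x, x ∉ K → pd i f x = 0 := by
  intro x hx
  unfold pd
  rw [fderiv_zero_off hK hf hx]
  rfl

theorem lapS_zero_off {K : Set E3} (hK : IsClosed K) {f : E3 → ℝ} (hf : ∀ x, x ∉ K → f x = 0) :
    ∀ x, x ∉ K → lapS f x = 0 := by
  intro x hx
  unfold lapS
  exact Finset.sum_eq_zero fun j _ => pd_zero_off hK (pd_zero_off hK hf j) j x hx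

theorem deriv_comp {g : ℝ → E3 → E3} (hg : ContDiff ℝ ∞ (fun p : ℝ × E3 => g p.1 p.2)) (t : ℝ)
    (x : E3) (i : Fin 3) : deriv (fun s => g s x i) t = deriv (fun s => g s x) t i := by
  have h1 := (deriv_eq hg t x).differentiableAt.hasDerivAt
  have h2 := (EuclideanSpace.proj (𝕜 := ℝ) i : E3 →L[ℝ] ℝ).hasFDerivAt.comp_hasDerivAt t h1
  exact h2.deriv

theorem smf_resid {K : Set E3} (hK : IsClosed K) (ν : ℝ) {g : ℝ → E3 → E3} {P : ℝ → E3 → ℝ}
    (hg : SmF K g) (hP : SmF K P) : SmF K (resid ν g P) where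
  smooth := by
    refine contDiff_euclidean.2 fun i => ?_
    have h1 := smooth_lapS (f := fun t y => g t y i) (smooth_comp hg.smooth i)
    have h2 : ∀ j : Fin 3, ContDiff ℝ ∞ (fun p : ℝ × E3 => g p.1 p.2 j *
        pd j (fun y => g p.1 y i) p.2) := fun j =>
      (smooth_comp hg.smooth j).mul (smooth_pd (f := fun t y => g t y i)
        (smooth_comp hg.smooth i) j)
    have h3 := contDiff_deriv (g := fun t y => g t y i) (smooth_comp hg.smooth i)
    have h4 := smooth_pd hP.smooth i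
    exact (((contDiff_const.mul h1).sub (ContDiff.sum fun j _ => h2 j)).sub h3).add h4
  supp := fun t x hx => by
    have h0 : ∀ i : Fin 3, ∀ y, y ∉ K → g t y i = 0 := fun i y hy => by
      rw [hg.supp t y hy]
      rfl
    ext i
    have e1 : lapS (fun y => g t y i) x = 0 := lapS_zero_off hK (h0 i) x hx
    have e2 : ∀ j, g t x j = 0 := fun j => h0 j x hx
    have e3 : deriv (fun s => g s x i) t = 0 := by
      have e : (fun s => g s x i) = fun _ => 0 := funext fun s => by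
        rw [hg.supp s x hx]
        rfl
      rw [e]
      simp
    have e4 : pd i (P t) x = 0 := pd_zero_off hK (hP.supp t) i x hx
    show ν * lapS (fun y => g t y i) x - ∑ j, g t x j * pd j (fun y => g t y i) x
      - deriv (fun s => g s x i) t + pd i (P t) x = 0
    rw [e1, e3, e4]
    simp [e2]

theorem smf_jac {K : Set E3} (hK : IsClosed K) {g : ℝ → E3 → E3} (hg : SmF K g) :
    SmF K (fun t => jac (g t)) where
  smooth := by
    refine contDiff_euclidean.2 fun p => ?_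
    exact contDiff_euclidean.1 (smooth_fd hg.smooth (EuclideanSpace.single p.2 1)) p.1
  supp := fun t x hx => by
    ext p
    show fderiv ℝ (g t) x (EuclideanSpace.single p.2 1) p.1 = 0
    rw [fderiv_zero_off hK (hg.supp t) hx]
    rfl

theorem smf_contDiff {F : Type} [NormedAddCommGroup F] [NormedSpace ℝ F] {K : Set E3}
    {g : ℝ → E3 → F} (hg : SmF K g) (t : ℝ) : ContDiff ℝ ∞ (g t) :=
  hg.smooth.comp (contDiff_const.prodMk contDiff_id : ContDiff ℝ ∞ fun x : E3 => (t, x))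

theorem isTest_of {Ω K : Set E3} (hK : IsCompact K) (hKΩ : K ⊆ Ω) {g : ℝ → E3 → E3}
    (hg : SmF K g) {t : ℝ} (hdiv : ∀ x, ∑ i, pd i (fun y => g t y i) x = 0) :
    IsTest Ω (g t) where
  smooth := smf_contDiff hg t
  compact := HasCompactSupport.intro hK (hg.supp t)
  supp := by
    refine (closure_minimal ?_ hK.isClosed).trans hKΩ
    intro x hx
    by_contra hc
    exact hx (hg.supp t x hc)
  divfree := fun x => by
    rw [← hdiv x]
    refine Finset.sum_congr rfl fun i _ => ?_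
    have h1 : HasFDerivAt (g t) (fderiv ℝ (g t) x) x :=
      (((smf_contDiff hg t).differentiable (by simp)) x).hasFDerivAt
    have h2 := (EuclideanSpace.proj (𝕜 := ℝ) i : E3 →L[ℝ] ℝ).hasFDerivAt.comp x h1
    have h3 : fderiv ℝ (fun y => g t y i) x
        = (EuclideanSpace.proj (𝕜 := ℝ) i : E3 →L[ℝ] ℝ).comp (fderiv ℝ (g t) x) := h2.fderiv
    unfold pd
    rw [h3]
    rfl

/-- The derivative of a curve in a closed subspace is in the subspace. -/
theorem deriv_mem {X : Type} [NormedAddCommGroup X] [NormedSpace ℝ X] {W : Submodule ℝ X}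
    (hW : IsClosed (W : Set X)) {f : ℝ → X} {f' : X} {t : ℝ} (hf : HasDerivAt f f' t)
    (hmem : ∀ s, f s ∈ W) : f' ∈ W := by
  have h1 := hasDerivAt_iff_tendsto_slope.1 hf
  refine hW.mem_of_tendsto h1 (Eventually.of_forall fun s => ?_)
  exact W.smul_mem _ (W.sub_mem (hmem s) (hmem t))

/-- **Piece LIFT.** -/
theorem t_LIFT (hWI : S_WI) : S_LIFT := by
  intro Ω K hΩ hK hKΩ
  obtain ⟨B, -, hB2, hB3, hB4⟩ := t_OP Ω K hΩ hK hKΩ
  have hV2 : 2 ≤ vK K + 2 := by linarith [vK_pos K]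
  have hVv : vK K ≤ vK K + 2 := by linarith
  refine ⟨vK K + 2, by linarith [vK_pos K], fun ν g P hg hP hdiv => ?_⟩
  have hKc := hK.isClosed
  have hr := smf_resid hKc ν hg hP
  have hj := smf_jac hKc hg
  have hd := smf_deriv hg
  have hGd := gen_deriv hK (vK_pos K).le (cl_sub (Ω := Ω) hK 2) (cl_smul hK 2) (cl_bd hK) hg
  have hYd := gen_deriv hK (vK_pos K).le (cl_sub (Ω := Ω) hK 2) (cl_smul hK 2) (cl_bd hK) hj
  have hEd := gen_deriv hK (vK_pos K).le (cl_sub (Ω := Ω) hK 2) (cl_smul hK 2) (cl_bd hK) hr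
  have hG1c := gen_cont hK (vK_pos K).le (cl_sub (Ω := Ω) hK 2) (cl_bd hK) hd
  have hY1c := gen_cont hK (vK_pos K).le (cl_sub (Ω := Ω) hK 2) (cl_bd hK) (smf_deriv hj)
  have hE1c := gen_cont hK (vK_pos K).le (cl_sub (Ω := Ω) hK 2) (cl_bd hK) (smf_deriv hr)
  have hG : ∀ t, (cl Ω 2 (g t) : E3 → E3) =ᵐ[volume.restrict Ω] g t := fun t =>
    cl_coe hK (smf_cont hg t) (hg.supp t) 2
  have hY : ∀ t, (cl Ω 2 (jac (g t)) : E3 → M3) =ᵐ[volume.restrict Ω] jac (g t) := fun t =>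
    cl_coe hK (smf_cont hj t) (hj.supp t) 2
  have hE : ∀ t, (cl Ω 2 (resid ν g P t) : E3 → E3) =ᵐ[volume.restrict Ω] resid ν g P t :=
    fun t => cl_coe hK (smf_cont hr t) (hr.supp t) 2
  have hG1 : ∀ t, (cl Ω 2 (fun x => deriv (fun s => g s x) t) : E3 → E3)
      =ᵐ[volume.restrict Ω] fun x => deriv (fun s => g s x) t := fun t =>
    cl_coe hK (smf_cont hd t) (hd.supp t) 2
  have hmem : ∀ t, (cl Ω 2 (g t), cl Ω 2 (jac (g t))) ∈ graphW Ω := fun t =>
    (H772R2.NS.preW Ω).le_topologicalClosure ⟨g t, isTest_of hK hKΩ hg (hdiv t), hG t, hY t⟩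
  have hsuppK : ∀ {X : Type} [NormedAddCommGroup X] {f : E3 → X}, (∀ x, x ∉ K → f x = 0) →
      tsupport f ⊆ K := by
    intro X _ f hf
    refine closure_minimal ?_ hKc
    intro x hx
    by_contra hc
    exact hx (hf x hc)
  have hmul : ∀ {a b c : ℝ}, a ≤ c → 0 ≤ b → a * b ≤ c * b := fun h1 h2 =>
    mul_le_mul_of_nonneg_right h1 h2
  refine ⟨fun t => B (g t), fun t => B fun x => deriv (fun s => g s x) t,
    fun t => cl Ω 2 (resid ν g P t), fun t => cl Ω 2 fun x => deriv (fun s => resid ν g P s x) t,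
    fun t => cl Ω 2 (g t), fun t => cl Ω 2 fun x => deriv (fun s => g s x) t,
    fun t => cl Ω 2 (jac (g t)), fun t => cl Ω 2 fun x => deriv (fun s => jac (g s) x) t,
    ?_, (hB3 g hg).1, (hB3 g hg).2, hEd, hE1c, hG, hY, ?_, ?_, ?_, ?_, ?_, ?_⟩
  · refine ⟨hmem, ?_, hGd, hYd, hG1c, hY1c, ?_, ?_⟩
    · intro t
      exact deriv_mem (H772R2.NS.graphW_closed Ω) ((hGd t).prodMk (hYd t)) hmem
    · intro t p hp
      exact hB4 (g t) (smf_cont hg t) (hg.supp t) _ _ (hG t) (hmem t) p hp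
    · intro t p hp
      refine (hWI Ω hΩ ν (g t) (fun x => deriv (fun s => g s x) t) (P t) _ _ _ _
        (isTest_of hK hKΩ hg (hdiv t)) ⟨smf_contDiff hd t, HasCompactSupport.intro hK (hd.supp t)⟩
        ((hsuppK (hd.supp t)).trans hKΩ)
        ⟨smf_contDiff hP t, HasCompactSupport.intro hK (hP.supp t)⟩
        ((hsuppK (hP.supp t)).trans hKΩ) (hG t) (hY t) (hG1 t) ?_).2 p hp
      refine (hE t).trans (Eventually.of_forall fun x => ?_)
      ext i
      show ν * lapS (fun y => g t y i) x - ∑ j, g t x j * pd j (fun y => g t y i) x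
        - deriv (fun s => g s x i) t + pd i (P t) x
        = ν * lapS (fun y => g t y i) x - ∑ j, g t x j * pd j (fun y => g t y i) x
        - deriv (fun s => g s x) t i + pd i (P t) x
      rw [deriv_comp hg.smooth]
  · intro t b hb
    exact (hB2 _ b (smf_cont hg t) (hg.supp t) hb).trans (hmul hV2 ((norm_nonneg _).trans (hb 0)))
  · intro t b hb
    exact (hB2 _ b (smf_cont hd t) (hd.supp t) hb).trans (hmul hV2 ((norm_nonneg _).trans (hb 0)))
  · intro t b hb
    exact (cl_bd hK _ (smf_cont hr t) (hr.supp t) b hb).trans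
      (hmul hVv ((norm_nonneg _).trans (hb 0)))
  · intro t b hb
    exact (cl_bd hK _ (smf_cont (smf_deriv hr) t) ((smf_deriv hr).supp t) b hb).trans
      (hmul hVv ((norm_nonneg _).trans (hb 0)))
  · intro t b hb
    exact (cl_bd hK _ (smf_cont hj t) (hj.supp t) b hb).trans
      (hmul hVv ((norm_nonneg _).trans (hb 0)))
  · intro t b f Φ hΦ hf hf0 hb
    refine (norm_le_of_ae hK (f := g t - f) (fun x hx => ?_) (B := b) hb ?_).trans
      (hmul hVv ((norm_nonneg _).trans (hb 0)))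
    · rw [Pi.sub_apply, hg.supp t x hx, hf0 x hx, sub_zero]
    · exact (Lp.coeFn_sub _ _).trans ((hG t).sub hΦ)

end Pool.Agent.Run7.h811.DD
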