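import Pool.Agent.Run7.h811.DD.CLS

/-!
Piece OP of the project DD (MP_fd8964_an): the operators `x ↦ Φ ⊗ x + x ⊗ Φ`.
-/

set_option autoImplicit false

open MeasureTheory Set Filter Topology
open scoped InnerProductSpace ContDiff ENNReal

namespace Pool.Agent.Run7.h811.DD

open Run7.h744.DD
open H772R2.NS (E3 M3 L2V L2M graphW tensL IsTest jac L2sigma)

/-- `a ⊗ b + b ⊗ a`. -/
noncomputable def tt (a b : E3) : M3 :=
  WithLp.toLp 2 fun p : Fin 3 × Fin 3 => a p.1 * b p.2 + b p.1 * a p.2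

theorem norm_tt (a b : E3) : ‖tt a b‖ ≤ 2 * ‖a‖ * ‖b‖ := by
  let p : M3 := WithLp.toLp 2 fun p => a p.1 * b p.2
  let q : M3 := WithLp.toLp 2 fun p => b p.1 * a p.2
  have hp : ‖p‖ = ‖a‖ * ‖b‖ := by
    have h : ‖p‖ ^ 2 = (‖a‖ * ‖b‖) ^ 2 := by
      rw [H772R2.NS.norm_sq_M3, mul_pow, H772R2.NS.norm_sq_E3, H772R2.NS.norm_sq_E3,
        Finset.sum_mul_sum]
      simp only [p, mul_pow]
    exact (pow_left_inj₀ (norm_nonneg _) (by positivity) (by norm_num)).mp h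
  have hq : ‖q‖ = ‖b‖ * ‖a‖ := by
    have h : ‖q‖ ^ 2 = (‖b‖ * ‖a‖) ^ 2 := by
      rw [H772R2.NS.norm_sq_M3, mul_pow, H772R2.NS.norm_sq_E3, H772R2.NS.norm_sq_E3,
        Finset.sum_mul_sum]
      simp only [q, mul_pow]
    exact (pow_left_inj₀ (norm_nonneg _) (by positivity) (by norm_num)).mp h
  have hsum : tt a b = p + q := by
    ext r
    simp only [PiLp.add_apply, tt, p, q]
  rw [hsum]
  calc ‖p + q‖ ≤ ‖p‖ + ‖q‖ := norm_add_le _ _
    _ = 2 * ‖a‖ * ‖b‖ := by rw [hp, hq]; ring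

/-- The bilinear map. -/
noncomputable def TT : E3 →L[ℝ] E3 →L[ℝ] M3 :=
  LinearMap.mkContinuous₂ (LinearMap.mk₂ ℝ tt
    (fun a a' b => by
      ext r
      simp only [tt, PiLp.add_apply]
      ring)
    (fun c a b => by
      ext r
      simp only [tt, PiLp.smul_apply, smul_eq_mul]
      ring)
    (fun a b b' => by
      ext r
      simp only [tt, PiLp.add_apply]
      ring)
    (fun c a b => by
      ext r
      simp only [tt, PiLp.smul_apply, smul_eq_mul]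
      ring)) 2 (fun a b => norm_tt a b)

theorem TT_apply (a b : E3) : TT a b = tt a b := rfl

theorem norm_TT : ‖TT‖ ≤ 2 := LinearMap.mkContinuous₂_norm_le _ (by norm_num) _

theorem cl_bd_top {F : Type} [NormedAddCommGroup F] [NormedSpace ℝ F] [FiniteDimensional ℝ F]
    [MeasurableSpace F] [BorelSpace F] {Ω K : Set E3} (hK : IsCompact K) (f : E3 → F)
    (hf : Continuous f) (f0 : ∀ x, x ∉ K → f x = 0) (B : ℝ) (hB : ∀ x, ‖f x‖ ≤ B) :
    ‖cl Ω ⊤ f‖ ≤ 1 * B := by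
  have hB0 : 0 ≤ B := (norm_nonneg _).trans (hB 0)
  have h1 : eLpNorm (cl Ω ⊤ f) ⊤ (volume.restrict Ω) ≤ ENNReal.ofReal B := by
    rw [eLpNorm_congr_ae (cl_coe hK hf f0 ⊤)]
    refine (eLpNorm_le_of_ae_bound (Eventually.of_forall hB)).trans (le_of_eq ?_)
    simp
  rw [Lp.norm_def, one_mul]
  refine (ENNReal.toReal_mono ENNReal.ofReal_ne_top h1).trans ?_
  rw [ENNReal.toReal_ofReal hB0]

/-- The operator. -/
noncomputable def BB (Ω : Set E3) (Φ : E3 → E3) : L2V Ω →L[ℝ] L2M Ω :=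
  TT.holderL (volume.restrict Ω) ⊤ 2 2 (cl Ω ⊤ Φ)

theorem BB_coe {Ω K : Set E3} (hK : IsCompact K) {Φ : E3 → E3} (hΦ : Continuous Φ)
    (h0 : ∀ x, x ∉ K → Φ x = 0) (v : L2V Ω) :
    (BB Ω Φ v : E3 → M3) =ᵐ[volume.restrict Ω] fun x => tt (Φ x) (v x) := by
  have h1 : (BB Ω Φ v : E3 → M3) =ᵐ[volume.restrict Ω]
      fun x => TT ((cl Ω ⊤ Φ : E3 → E3) x) (v x) :=
    ContinuousLinearMap.coeFn_holder (r := 2) (B := TT) (cl Ω ⊤ Φ) v
  filter_upwards [h1, cl_coe (Ω := Ω) hK hΦ h0 ⊤] with x hx1 hx2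
  rw [hx1, hx2]
  rfl

theorem tens_add (a b : E3) :
    H772R2.NS.tens (a + b) = H772R2.NS.tens a + tt a b + H772R2.NS.tens b := by
  ext r
  simp only [H772R2.NS.tens, tt, PiLp.add_apply]
  ring

/-- **Piece OP.** -/
theorem t_OP : S_OP := by
  intro Ω K hΩ hK _
  refine ⟨BB Ω, ?_, ?_, ?_, ?_⟩
  · exact fun Φ hΦ h0 v => BB_coe hK hΦ h0 v
  · intro Φ b hΦ h0 hb
    have hb0 : 0 ≤ b := (norm_nonneg _).trans (hb 0)
    have h1 : ‖BB Ω Φ‖ ≤ ‖TT.holderL (volume.restrict Ω) ⊤ 2 2‖ * ‖cl Ω ⊤ Φ‖ :=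
      (TT.holderL (volume.restrict Ω) ⊤ 2 2).le_opNorm _
    refine h1.trans ?_
    refine mul_le_mul ((ContinuousLinearMap.norm_holderL_le (B := TT)).trans norm_TT) ?_
      (norm_nonneg _) (by norm_num)
    have h2 := cl_bd_top (Ω := Ω) hK Φ hΦ h0 b hb
    rwa [one_mul] at h2
  · intro g hg
    constructor
    · intro t
      have h1 := gen_deriv hK zero_le_one (cl_sub (Ω := Ω) hK ⊤) (cl_smul hK ⊤) (cl_bd_top hK) hg t
      exact (TT.holderL (volume.restrict Ω) ⊤ 2 2).hasFDerivAt.comp_hasDerivAt t h1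
    · have h1 := gen_cont hK zero_le_one (cl_sub (Ω := Ω) hK ⊤) (cl_bd_top hK) (smf_deriv hg)
      exact (TT.holderL (volume.restrict Ω) ⊤ 2 2).continuous.comp h1
  · intro Φ hΦ h0 v y hv hvy p hp
    have hm : MeasurableSet Ω := hΩ.measurableSet
    have h1 := H772R2.NS.tensL_coe hm hvy
    have h2 := H772R2.NS.tensL_coe hm hp
    have h3 := H772R2.NS.tensL_coe hm ((graphW Ω).add_mem hvy hp)
    have h4 := BB_coe (Ω := Ω) hK hΦ h0 p.1
    refine Lp.ext ?_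
    refine h3.trans ?_
    refine EventuallyEq.trans ?_ (Lp.coeFn_add _ _).symm
    filter_upwards [h1, h2, h4, hv, Lp.coeFn_add (tensL v) (BB Ω Φ p.1), Lp.coeFn_add v p.1]
      with x a1 a2 a4 av a5 a6
    have e1 : (((v, y) + p : L2V Ω × L2M Ω).1 : E3 → E3) x = v x + p.1 x := a6
    rw [e1, Pi.add_apply, a5, Pi.add_apply, a2, a4]
    rw [a1, av, tens_add]

end Pool.Agent.Run7.h811.DD
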