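import Pool.Agent.Run7.h744.DD.Iface

/-!
Piece CLS of the project DD (MP_fd8964_an): classes of smooth time dependent fields.
-/

set_option autoImplicit false

open MeasureTheory Set Filter Topology
open scoped InnerProductSpace ContDiff ENNReal

namespace Pool.Agent.Run7.h811.DD

open Run7.h744.DD
open H772R2.NS (E3 M3 L2V L2M graphW tensL IsTest jac L2sigma)

section calculus

variable {F : Type} [NormedAddCommGroup F] [NormedSpace ℝ F]

/-- The time derivative in terms of the joint derivative. -/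
theorem deriv_eq {g : ℝ → E3 → F} (hg : ContDiff ℝ ∞ (fun p : ℝ × E3 => g p.1 p.2)) (t : ℝ)
    (x : E3) : HasDerivAt (fun s => g s x) (fderiv ℝ (fun p : ℝ × E3 => g p.1 p.2) (t, x) (1, 0)) t := by
  have h1 : HasFDerivAt (fun p : ℝ × E3 => g p.1 p.2)
      (fderiv ℝ (fun p : ℝ × E3 => g p.1 p.2) (t, x)) (t, x) :=
    ((hg.differentiable (by simp)) (t, x)).hasFDerivAt
  have h2 : HasDerivAt (fun s : ℝ => (s, x)) ((1 : ℝ), (0 : E3)) t :=
    (hasDerivAt_id t).prodMk (hasDerivAt_const t x)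
  exact h1.comp_hasDerivAt t h2

theorem contDiff_deriv {g : ℝ → E3 → F} (hg : ContDiff ℝ ∞ (fun p : ℝ × E3 => g p.1 p.2)) :
    ContDiff ℝ ∞ (fun p : ℝ × E3 => deriv (fun s => g s p.2) p.1) := by
  have e : (fun p : ℝ × E3 => deriv (fun s => g s p.2) p.1)
      = fun p : ℝ × E3 => fderiv ℝ (fun p : ℝ × E3 => g p.1 p.2) p (1, 0) := by
    funext p
    exact (deriv_eq hg p.1 p.2).deriv
  rw [e]
  exact (hg.fderiv_right (m := ∞) (by simp)).clm_apply contDiff_const

theorem smf_deriv {K : Set E3} {g : ℝ → E3 → F} (hg : SmF K g) :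
    SmF K (fun t x => deriv (fun s => g s x) t) where
  smooth := contDiff_deriv hg.smooth
  supp := fun t x hx => by
    have e : (fun s => g s x) = fun _ => 0 := funext fun s => hg.supp s x hx
    rw [e]
    simp

theorem smf_cont {K : Set E3} {g : ℝ → E3 → F} (hg : SmF K g) (t : ℝ) : Continuous (g t) :=
  hg.smooth.continuous.comp (Continuous.prodMk_right t)

/-- Uniform continuity in time. -/
theorem unif {K : Set E3} (hK : IsCompact K) {g : ℝ → E3 → F} (hg : SmF K g) (t : ℝ) {ε : ℝ}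
    (hε : 0 < ε) : ∃ δ : ℝ, 0 < δ ∧ ∀ s, |s - t| < δ → ∀ x, ‖g s x - g t x‖ ≤ ε := by
  have hc : Continuous fun p : ℝ × E3 => ‖g p.1 p.2 - g t p.2‖ :=
    (hg.smooth.continuous.sub (hg.smooth.continuous.comp
      (continuous_const.prodMk continuous_snd : Continuous fun p : ℝ × E3 => (t, p.2)))).norm
  have hn : IsOpen {p : ℝ × E3 | ‖g p.1 p.2 - g t p.2‖ < ε} := isOpen_lt hc continuous_const
  have hp : ({t} : Set ℝ) ×ˢ K ⊆ {p : ℝ × E3 | ‖g p.1 p.2 - g t p.2‖ < ε} := by
    rintro ⟨s, x⟩ ⟨hs, _⟩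
    rw [mem_singleton_iff] at hs
    dsimp only at hs
    subst hs
    simpa using hε
  obtain ⟨u, v, hu, _, htu, hKv, huv⟩ := generalized_tube_lemma isCompact_singleton hK hn hp
  obtain ⟨δ, hδ, hball⟩ := Metric.isOpen_iff.1 hu t (htu rfl)
  refine ⟨δ, hδ, fun s hs x => ?_⟩
  by_cases hx : x ∈ K
  · have h1 : s ∈ u := hball (by rwa [Metric.mem_ball, Real.dist_eq])
    exact (huv (mk_mem_prod h1 (hKv hx))).le
  · rw [hg.supp s x hx, hg.supp t x hx, sub_zero, norm_zero]
    exact hε.le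

/-- Continuity of the class in time, for an abstract class map. -/
theorem gen_cont {X : Type} [NormedAddCommGroup X] {K : Set E3} (hK : IsCompact K)
    {c : (E3 → F) → X} {V0 : ℝ} (hV : 0 ≤ V0)
    (hsub : ∀ f g, Continuous f → (∀ x, x ∉ K → f x = 0) → Continuous g → (∀ x, x ∉ K → g x = 0) →
      c (f - g) = c f - c g)
    (hbd : ∀ f, Continuous f → (∀ x, x ∉ K → f x = 0) → ∀ B, (∀ x, ‖f x‖ ≤ B) → ‖c f‖ ≤ V0 * B)
    {g : ℝ → E3 → F} (hg : SmF K g) : Continuous fun t => c (g t) := by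
  rw [Metric.continuous_iff]
  intro t ε hε
  obtain ⟨δ, hδ, h⟩ := unif hK hg t (ε := ε / (V0 + 1)) (by positivity)
  refine ⟨δ, hδ, fun s hs => ?_⟩
  rw [Real.dist_eq] at hs
  rw [dist_eq_norm, ← hsub _ _ (smf_cont hg s) (hg.supp s) (smf_cont hg t) (hg.supp t)]
  refine (hbd _ ((smf_cont hg s).sub (smf_cont hg t)) (fun x hx => ?_) _ (h s hs)).trans_lt ?_
  · rw [Pi.sub_apply, hg.supp s x hx, hg.supp t x hx, sub_zero]
  · rw [← mul_div_assoc, div_lt_iff₀ (by positivity)]
    nlinarith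

/-- Differentiability of the class in time, for an abstract class map. -/
theorem gen_deriv {X : Type} [NormedAddCommGroup X] [NormedSpace ℝ X] {K : Set E3}
    (hK : IsCompact K) {c : (E3 → F) → X} {V0 : ℝ} (hV : 0 ≤ V0)
    (hsub : ∀ f g, Continuous f → (∀ x, x ∉ K → f x = 0) → Continuous g → (∀ x, x ∉ K → g x = 0) →
      c (f - g) = c f - c g)
    (hsmul : ∀ (r : ℝ) f, Continuous f → (∀ x, x ∉ K → f x = 0) → c (r • f) = r • c f)
    (hbd : ∀ f, Continuous f → (∀ x, x ∉ K → f x = 0) → ∀ B, (∀ x, ‖f x‖ ≤ B) → ‖c f‖ ≤ V0 * B)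
    {g : ℝ → E3 → F} (hg : SmF K g) (t : ℝ) :
    HasDerivAt (fun s => c (g s)) (c fun x => deriv (fun s => g s x) t) t := by
  rw [hasDerivAt_iff_isLittleO, Asymptotics.isLittleO_iff]
  intro ε hε
  obtain ⟨δ, hδ, h⟩ := unif hK (smf_deriv hg) t (ε := ε / (V0 + 1)) (by positivity)
  filter_upwards [Metric.ball_mem_nhds t hδ] with s hs
  have hd : SmF K fun t x => deriv (fun s => g s x) t := smf_deriv hg
  have hdc : Continuous fun x => deriv (fun s => g s x) t := smf_cont hd t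
  have hds : ∀ x, x ∉ K → deriv (fun s => g s x) t = 0 := hd.supp t
  have e1 : c (g s) - c (g t) - (s - t) • c (fun x => deriv (fun s => g s x) t)
      = c (g s - g t - (s - t) • fun x => deriv (fun s => g s x) t) := by
    rw [hsub (g s - g t) _ ((smf_cont hg s).sub (smf_cont hg t)) (fun x hx => by
        rw [Pi.sub_apply, hg.supp s x hx, hg.supp t x hx, sub_zero]) (hdc.const_smul _)
        (fun x hx => by rw [Pi.smul_apply, hds x hx, smul_zero]),
      hsub _ _ (smf_cont hg s) (hg.supp s) (smf_cont hg t) (hg.supp t), hsmul _ _ hdc hds]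
  rw [e1]
  have hpt : ∀ x, ‖(g s - g t - (s - t) • fun x => deriv (fun s => g s x) t) x‖
      ≤ ε / (V0 + 1) * ‖s - t‖ := by
    intro x
    have h1 := Convex.norm_image_sub_le_of_norm_hasDerivWithin_le
      (f := fun r => g r x - r • deriv (fun s => g s x) t)
      (f' := fun r => deriv (fun s => g s x) r - deriv (fun s => g s x) t)
      (C := ε / (V0 + 1)) (s := Metric.ball t δ) (x := t) (y := s)
      (fun r _ => (((deriv_eq hg.smooth r x).differentiableAt.hasDerivAt).sub (by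
        simpa using (hasDerivAt_id r).smul_const (deriv (fun s => g s x) t))).hasDerivWithinAt)
      (fun r hr => by
        rw [Metric.mem_ball, Real.dist_eq] at hr
        exact h r hr x)
      (convex_ball t δ) (Metric.mem_ball_self hδ) hs
    have e2 : (g s - g t - (s - t) • fun x => deriv (fun s => g s x) t) x
        = g s x - s • deriv (fun s => g s x) t - (g t x - t • deriv (fun s => g s x) t) := by
      simp only [Pi.sub_apply, Pi.smul_apply, sub_smul]
      abel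
    rw [e2]
    exact h1
  refine (hbd _ (((smf_cont hg s).sub (smf_cont hg t)).sub (hdc.const_smul _)) (fun x hx => ?_) _
    hpt).trans ?_
  · simp only [Pi.sub_apply, Pi.smul_apply, hg.supp s x hx, hg.supp t x hx, hds x hx, smul_zero,
      sub_zero]
  · have h2 : V0 * (ε / (V0 + 1)) ≤ ε := by
      rw [← mul_div_assoc, div_le_iff₀ (by positivity)]
      nlinarith
    calc V0 * (ε / (V0 + 1) * ‖s - t‖) = V0 * (ε / (V0 + 1)) * ‖s - t‖ := by ring
      _ ≤ ε * ‖s - t‖ := mul_le_mul_of_nonneg_right h2 (norm_nonneg _)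

end calculus

section cls

variable {F : Type} [NormedAddCommGroup F] [NormedSpace ℝ F] [FiniteDimensional ℝ F]
  [MeasurableSpace F] [BorelSpace F]

/-- The constant. -/
noncomputable def vK (K : Set E3) : ℝ := (volume K ^ (2 : ℝ≥0∞).toReal⁻¹).toReal + 1

theorem vK_pos (K : Set E3) : 0 < vK K := by
  unfold vK
  positivity

theorem norm_le_of_ae {Ω K : Set E3} (hK : IsCompact K) {f : E3 → F}
    (h0 : ∀ x, x ∉ K → f x = 0) {B : ℝ} (hB : ∀ x, ‖f x‖ ≤ B)
    {Φ : Lp F 2 (volume.restrict Ω)} (hΦ : Φ =ᵐ[volume.restrict Ω] f) : ‖Φ‖ ≤ vK K * B := by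
  have hB0 : 0 ≤ B := (norm_nonneg _).trans (hB 0)
  have hKm : MeasurableSet K := hK.measurableSet
  have hKt : volume K ^ (2 : ℝ≥0∞).toReal⁻¹ ≠ ⊤ := by
    refine ENNReal.rpow_ne_top_of_nonneg (by simp) hK.measure_lt_top.ne
  have h1 : eLpNorm Φ 2 (volume.restrict Ω)
      ≤ volume K ^ (2 : ℝ≥0∞).toReal⁻¹ * ENNReal.ofReal B := by
    rw [eLpNorm_congr_ae hΦ]
    refine (eLpNorm_mono_measure _ Measure.restrict_le_self).trans ?_
    have e1 : K.indicator f = f := by
      rw [indicator_eq_self]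
      intro x hx
      by_contra hc
      exact hx (h0 x hc)
    rw [← e1, eLpNorm_indicator_eq_eLpNorm_restrict hKm]
    refine (eLpNorm_le_of_ae_bound (Eventually.of_forall hB)).trans (le_of_eq ?_)
    rw [Measure.restrict_apply_univ]
  rw [Lp.norm_def]
  refine (ENNReal.toReal_mono (ENNReal.mul_ne_top hKt ENNReal.ofReal_ne_top) h1).trans ?_
  rw [ENNReal.toReal_mul, ENNReal.toReal_ofReal hB0]
  unfold vK
  exact mul_le_mul_of_nonneg_right (by linarith) hB0

theorem memLp_of {Ω K : Set E3} (hK : IsCompact K) {f : E3 → F} (hf : Continuous f)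
    (h0 : ∀ x, x ∉ K → f x = 0) (p : ℝ≥0∞) : MemLp f p (volume.restrict Ω) :=
  (hf.memLp_of_hasCompactSupport (HasCompactSupport.intro hK h0)).restrict Ω

open Classical in
/-- The class of a function. -/
noncomputable def cl (Ω : Set E3) (p : ℝ≥0∞) (f : E3 → F) : Lp F p (volume.restrict Ω) :=
  if h : MemLp f p (volume.restrict Ω) then h.toLp f else 0

theorem cl_coe {Ω K : Set E3} (hK : IsCompact K) {f : E3 → F} (hf : Continuous f)
    (h0 : ∀ x, x ∉ K → f x = 0) (p : ℝ≥0∞) :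
    (cl Ω p f : E3 → F) =ᵐ[volume.restrict Ω] f := by
  unfold cl
  rw [dif_pos (memLp_of hK hf h0 p)]
  exact MemLp.coeFn_toLp _

theorem cl_sub {Ω K : Set E3} (hK : IsCompact K) (p : ℝ≥0∞) (f g : E3 → F) (hf : Continuous f)
    (f0 : ∀ x, x ∉ K → f x = 0) (hg : Continuous g) (g0 : ∀ x, x ∉ K → g x = 0) :
    cl Ω p (f - g) = cl Ω p f - cl Ω p g := by
  have h1 := memLp_of (Ω := Ω) hK hf f0 p
  have h2 := memLp_of (Ω := Ω) hK hg g0 p
  unfold cl
  rw [dif_pos h1, dif_pos h2, dif_pos (h1.sub h2)]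
  exact MemLp.toLp_sub h1 h2

theorem cl_smul {Ω K : Set E3} (hK : IsCompact K) (p : ℝ≥0∞) (r : ℝ) (f : E3 → F)
    (hf : Continuous f) (f0 : ∀ x, x ∉ K → f x = 0) : cl Ω p (r • f) = r • cl Ω p f := by
  have h1 := memLp_of (Ω := Ω) hK hf f0 p
  unfold cl
  rw [dif_pos h1, dif_pos (h1.const_smul r)]
  exact MemLp.toLp_const_smul r h1

theorem cl_bd {Ω K : Set E3} (hK : IsCompact K) (f : E3 → F) (hf : Continuous f)
    (f0 : ∀ x, x ∉ K → f x = 0) (B : ℝ) (hB : ∀ x, ‖f x‖ ≤ B) : ‖cl Ω 2 f‖ ≤ vK K * B :=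
  norm_le_of_ae hK f0 hB (cl_coe hK hf f0 2)

end cls

/-- **Piece CLS.** -/
theorem t_CLS : S_CLS := by
  intro F _ _ _ _ _ Ω K _ hK _
  refine ⟨vK K, vK_pos K, fun g hg => ⟨fun t => cl Ω 2 (g t),
    fun t => cl Ω 2 fun x => deriv (fun s => g s x) t, ?_, ?_, ?_, ?_, ?_, ?_⟩⟩
  · exact fun t => cl_coe hK (smf_cont hg t) (hg.supp t) 2
  · exact fun t => cl_coe hK (smf_cont (smf_deriv hg) t) ((smf_deriv hg).supp t) 2
  · exact fun t => gen_deriv hK (vK_pos K).le (cl_sub hK 2) (cl_smul hK 2) (cl_bd hK) hg t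
  · exact gen_cont hK (vK_pos K).le (cl_sub hK 2) (cl_bd hK) (smf_deriv hg)
  · exact fun t B hB => cl_bd hK _ (smf_cont hg t) (hg.supp t) B hB
  · exact fun t B hB => cl_bd hK _ (smf_cont (smf_deriv hg) t) ((smf_deriv hg).supp t) B hB

end Pool.Agent.Run7.h811.DD
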